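import Pool.Agent.Helper26.Er.Defs
import Pool.Agent.Helper38.Er.E9c

/-!
# Linear regression of stationary waves: fourth moments (MP_6b977f_mp, package E9d)
-/

set_option autoImplicit false
set_option linter.unusedSectionVars false
open MeasureTheory Filter Topology ProbabilityTheory
open scoped ContDiff ENNReal InnerProductSpace

namespace Pool.Agent.Helper87.Er

open Pool.Agent.N661.BR (MW)
open Pool.Agent.Helper26.Ip
open Pool.Agent.Helper26.Er
open Complex (I)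

noncomputable section

/-- E9c as a hypothesis -/
def LawEq (μ : Measure MW) : Prop :=
  ∀ (n : ℕ) (a b : Fin n → Lp ℝ 2 μ), (∀ i, a i ∈ values μ) → (∀ i, b i ∈ values μ) →
    (∀ i j, ⟪a i, a j⟫_ℝ = ⟪b i, b j⟫_ℝ) → ∀ F : (Fin n → ℝ) → ℝ≥0∞, Measurable F →
    ∫⁻ f, F (fun i => a i f) ∂μ = ∫⁻ f, F (fun i => b i f) ∂μ

variable {μ : Measure MW} [IsProbabilityMeasure μ]

theorem aem {n : ℕ} (a : Fin n → Lp ℝ 2 μ) {F : (Fin n → ℝ) → ℝ} (hF : Measurable F) :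
    AEStronglyMeasurable (fun f => F (fun i => a i f)) μ := by
  refine (hF.comp_aemeasurable ?_).aestronglyMeasurable
  exact aemeasurable_pi_lambda _ fun i => (Lp.aestronglyMeasurable (a i)).aemeasurable

theorem int_eq (hl : LawEq μ) {n : ℕ} (a b : Fin n → Lp ℝ 2 μ) (ha : ∀ i, a i ∈ values μ)
    (hb : ∀ i, b i ∈ values μ) (hab : ∀ i j, ⟪a i, a j⟫_ℝ = ⟪b i, b j⟫_ℝ)
    (F : (Fin n → ℝ) → ℝ) (hF : Measurable F) (h0 : ∀ x, 0 ≤ F x) :
    ∫ f, F (fun i => a i f) ∂μ = ∫ f, F (fun i => b i f) ∂μ := by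
  rw [integral_eq_lintegral_of_nonneg_ae (Eventually.of_forall fun f => h0 _) (aem a hF),
    integral_eq_lintegral_of_nonneg_ae (Eventually.of_forall fun f => h0 _) (aem b hF)]
  rw [hl n a b ha hb hab (fun x => ENNReal.ofReal (F x)) hF.ennreal_ofReal]

theorem integrable_of (hl : LawEq μ) {n : ℕ} (a b : Fin n → Lp ℝ 2 μ) (ha : ∀ i, a i ∈ values μ)
    (hb : ∀ i, b i ∈ values μ) (hab : ∀ i j, ⟪a i, a j⟫_ℝ = ⟪b i, b j⟫_ℝ)
    (F : (Fin n → ℝ) → ℝ) (hF : Measurable F) (h0 : ∀ x, 0 ≤ F x)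
    (h : Integrable (fun f => F (fun i => a i f)) μ) :
    Integrable (fun f => F (fun i => b i f)) μ := by
  refine ⟨aem b hF, ?_⟩
  rw [hasFiniteIntegral_iff_ofReal (Eventually.of_forall fun f => h0 _)]
  rw [← hl n a b ha hb hab (fun x => ENNReal.ofReal (F x)) hF.ennreal_ofReal]
  have h1 := h.2
  rwa [hasFiniteIntegral_iff_ofReal (Eventually.of_forall fun f => h0 _)] at h1

/-- orthonormal tuples have the same Gram matrix -/
theorem gram {n : ℕ} {a b : Fin n → Lp ℝ 2 μ} (ha : Orthonormal ℝ a) (hb : Orthonormal ℝ b)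
    (i j : Fin n) : ⟪a i, a j⟫_ℝ = ⟪b i, b j⟫_ℝ := by
  rw [orthonormal_iff_ite.1 ha i j, orthonormal_iff_ite.1 hb i j]

theorem moments' (hl : LawEq μ) {x : Fin 3 → Lp ℝ 2 μ} (hx : ∀ i, x i ∈ values μ)
    (ho : Orthonormal ℝ x)
    (h : ∫⁻ f, ENNReal.ofReal ((x 0 f ^ 2 - (x 1 f ^ 2 + x 2 f ^ 2) / 2) ^ 2) ∂μ ≤ 3) :
    ∃ q : ℝ, q ≤ 1 ∧ ∀ a ∈ values μ, ∀ b ∈ values μ, Orthonormal ℝ ![a, b] →
      Integrable (fun f => a f ^ 4) μ ∧ Integrable (fun f => a f ^ 2 * b f ^ 2) μ ∧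
      ∫ f, a f ^ 4 ∂μ = 3 * q ∧ ∫ f, a f ^ 2 * b f ^ 2 ∂μ = q := by
  -- the function of three variables
  have m3 : Measurable (fun y : Fin 3 → ℝ => (y 0 ^ 2 - (y 1 ^ 2 + y 2 ^ 2) / 2) ^ 2) := by
    fun_prop
  have i0 : Integrable (fun f => (x 0 f ^ 2 - (x 1 f ^ 2 + x 2 f ^ 2) / 2) ^ 2) μ := by
    refine ⟨aem x m3, ?_⟩
    rw [hasFiniteIntegral_iff_ofReal (Eventually.of_forall fun f => sq_nonneg _)]
    exact lt_of_le_of_lt h (by norm_num)
  -- permuted triple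
  have inj : Function.Injective (![1, 2, 0] : Fin 3 → Fin 3) := by decide
  have ho1 : Orthonormal ℝ (fun i => x ((![1, 2, 0] : Fin 3 → Fin 3) i)) := ho.comp _ inj
  have i1 : Integrable (fun f => (x 1 f ^ 2 - (x 2 f ^ 2 + x 0 f ^ 2) / 2) ^ 2) μ :=
    integrable_of hl x _ hx (fun i => hx _) (gram ho ho1) _ m3 (fun _ => sq_nonneg _) i0
  have ho01 : Orthonormal ℝ ![x 0, x 1] := by
    have : Function.Injective (![0, 1] : Fin 2 → Fin 3) := by decide
    convert ho.comp _ this using 1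
    ext i : 1
    fin_cases i <;> rfl
  -- the difference
  have i2 : Integrable (fun f => (x 0 f ^ 2 - x 1 f ^ 2) ^ 2) μ := by
    refine ((i0.add i1).const_mul (8 / 9)).mono' ?_ (Eventually.of_forall fun f => ?_)
    · exact aem x (F := fun y => (y 0 ^ 2 - y 1 ^ 2) ^ 2) (by fun_prop)
    · rw [Real.norm_of_nonneg (sq_nonneg _)]
      simp only [Pi.add_apply]
      nlinarith [sq_nonneg ((x 0 f ^ 2 - (x 1 f ^ 2 + x 2 f ^ 2) / 2) +
        (x 1 f ^ 2 - (x 2 f ^ 2 + x 0 f ^ 2) / 2))]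
  -- rotation by 45 degrees
  set s : ℝ := (√2)⁻¹ with hs
  have hs2 : s * s = 1 / 2 := by
    rw [hs, ← mul_inv, Real.mul_self_sqrt (by norm_num)]; norm_num
  set u : Lp ℝ 2 μ := s • (x 0 + x 1) with hu
  set v : Lp ℝ 2 μ := s • (x 0 - x 1) with hv
  have n0 : ⟪x 0, x 0⟫_ℝ = 1 := by rw [orthonormal_iff_ite.1 ho]; simp
  have n1 : ⟪x 1, x 1⟫_ℝ = 1 := by rw [orthonormal_iff_ite.1 ho]; simp
  have n01 : ⟪x 0, x 1⟫_ℝ = 0 := by rw [orthonormal_iff_ite.1 ho]; simp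
  have n10 : ⟪x 1, x 0⟫_ℝ = 0 := by rw [orthonormal_iff_ite.1 ho]; simp
  have huv : Orthonormal ℝ ![u, v] := by
    have e1 : ⟪u, u⟫_ℝ = 1 := by
      rw [hu, real_inner_smul_left, real_inner_smul_right, inner_add_left, inner_add_right,
        inner_add_right, n0, n1, n01, n10]
      linarith [hs2]
    have e2 : ⟪u, v⟫_ℝ = 0 := by
      rw [hu, hv, real_inner_smul_left, real_inner_smul_right, inner_add_left, inner_sub_right,
        inner_sub_right, n0, n1, n01, n10]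
      ring
    have e3 : ⟪v, v⟫_ℝ = 1 := by
      rw [hv, real_inner_smul_left, real_inner_smul_right, inner_sub_left, inner_sub_right,
        inner_sub_right, n0, n1, n01, n10]
      linarith [hs2]
    have e4 : ⟪v, u⟫_ℝ = 0 := by rw [real_inner_comm, e2]
    rw [orthonormal_iff_ite]
    intro i j
    fin_cases i <;> fin_cases j
    · exact e1
    · exact e2
    · exact e4
    · exact e3
  have mu_ : ∀ i, (![u, v] : Fin 2 → Lp ℝ 2 μ) i ∈ values μ := by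
    intro i
    fin_cases i
    · exact Submodule.smul_mem _ _ (Submodule.add_mem _ (hx 0) (hx 1))
    · exact Submodule.smul_mem _ _ (Submodule.sub_mem _ (hx 0) (hx 1))
  have mx_ : ∀ i, (![x 0, x 1] : Fin 2 → Lp ℝ 2 μ) i ∈ values μ := by
    intro i
    fin_cases i
    · exact hx 0
    · exact hx 1
  have ae1 : (fun f => (2 * u f * v f) ^ 2) =ᵐ[μ] fun f => (x 0 f ^ 2 - x 1 f ^ 2) ^ 2 := by
    filter_upwards [Lp.coeFn_smul s (x 0 + x 1), Lp.coeFn_smul s (x 0 - x 1),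
      Lp.coeFn_add (x 0) (x 1), Lp.coeFn_sub (x 0) (x 1)] with f e1 e2 e3 e4
    rw [hu, hv, e1, e2]
    simp only [Pi.smul_apply, smul_eq_mul]
    rw [e3, e4]
    simp only [Pi.add_apply, Pi.sub_apply]
    have : 2 * (s * (x 0 f + x 1 f)) * (s * (x 0 f - x 1 f)) =
      2 * (s * s) * (x 0 f ^ 2 - x 1 f ^ 2) := by ring
    rw [this, hs2]
    ring
  have i3 : Integrable (fun f => (2 * u f * v f) ^ 2) μ := i2.congr ae1.symm
  have m2 : Measurable (fun y : Fin 2 → ℝ => (2 * y 0 * y 1) ^ 2) := by fun_prop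
  have i4 : Integrable (fun f => (2 * x 0 f * x 1 f) ^ 2) μ :=
    integrable_of hl ![u, v] ![x 0, x 1] mu_ mx_ (gram huv ho01)
      (fun y => (2 * y 0 * y 1) ^ 2) m2 (fun _ => sq_nonneg _) i3
  have e4 : ∫ f, (2 * x 0 f * x 1 f) ^ 2 ∂μ = ∫ f, (x 0 f ^ 2 - x 1 f ^ 2) ^ 2 ∂μ := by
    rw [← integral_congr_ae ae1]
    exact int_eq hl ![x 0, x 1] ![u, v] mx_ mu_ (gram ho01 huv)
      (fun y => (2 * y 0 * y 1) ^ 2) m2 (fun _ => sq_nonneg _)
  have i5 : Integrable (fun f => x 0 f ^ 2 * x 1 f ^ 2) μ := by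
    refine (i4.const_mul (1 / 4)).congr (Eventually.of_forall fun f => ?_)
    ring
  have i6 : Integrable (fun f => x 0 f ^ 4) μ := by
    refine (i2.add (i5.const_mul 2)).mono' ?_ (Eventually.of_forall fun f => ?_)
    · exact aem x (F := fun y => y 0 ^ 4) (by fun_prop)
    · rw [Real.norm_of_nonneg (by positivity)]
      simp only [Pi.add_apply]
      nlinarith [sq_nonneg (x 1 f ^ 2)]
  -- general pairs
  have gi4 : ∀ a ∈ values μ, ∀ b ∈ values μ, Orthonormal ℝ ![a, b] →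
      Integrable (fun f => a f ^ 4) μ := by
    intro a ha b hb hab
    have hm : ∀ i, (![a, b] : Fin 2 → Lp ℝ 2 μ) i ∈ values μ := by
      intro i
      fin_cases i
      · exact ha
      · exact hb
    exact integrable_of hl ![x 0, x 1] ![a, b] mx_ hm (gram ho01 hab)
      (fun y => y 0 ^ 4) (by fun_prop) (fun _ => by positivity) i6
  have gi22 : ∀ a ∈ values μ, ∀ b ∈ values μ, Orthonormal ℝ ![a, b] →
      Integrable (fun f => a f ^ 2 * b f ^ 2) μ := by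
    intro a ha b hb hab
    have hm : ∀ i, (![a, b] : Fin 2 → Lp ℝ 2 μ) i ∈ values μ := by
      intro i
      fin_cases i
      · exact ha
      · exact hb
    exact integrable_of hl ![x 0, x 1] ![a, b] mx_ hm (gram ho01 hab)
      (fun y => y 0 ^ 2 * y 1 ^ 2) (by fun_prop) (fun _ => by positivity) i5
  have ge4 : ∀ a ∈ values μ, ∀ b ∈ values μ, Orthonormal ℝ ![a, b] →
      ∫ f, a f ^ 4 ∂μ = ∫ f, x 0 f ^ 4 ∂μ := by
    intro a ha b hb hab
    have hm : ∀ i, (![a, b] : Fin 2 → Lp ℝ 2 μ) i ∈ values μ := by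
      intro i
      fin_cases i
      · exact ha
      · exact hb
    exact int_eq hl ![a, b] ![x 0, x 1] hm mx_ (gram hab ho01)
      (fun y => y 0 ^ 4) (by fun_prop) (fun _ => by positivity)
  have ge22 : ∀ a ∈ values μ, ∀ b ∈ values μ, Orthonormal ℝ ![a, b] →
      ∫ f, a f ^ 2 * b f ^ 2 ∂μ = ∫ f, x 0 f ^ 2 * x 1 f ^ 2 ∂μ := by
    intro a ha b hb hab
    have hm : ∀ i, (![a, b] : Fin 2 → Lp ℝ 2 μ) i ∈ values μ := by
      intro i
      fin_cases i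
      · exact ha
      · exact hb
    exact int_eq hl ![a, b] ![x 0, x 1] hm mx_ (gram hab ho01)
      (fun y => y 0 ^ 2 * y 1 ^ 2) (by fun_prop) (fun _ => by positivity)
  -- orthonormal pairs of the triple
  have pair : ∀ i j : Fin 3, i ≠ j → Orthonormal ℝ ![x i, x j] := by
    intro i j hij
    have hinj : Function.Injective (![i, j] : Fin 2 → Fin 3) := by
      intro k l hkl
      fin_cases k <;> fin_cases l
      · rfl
      · exact absurd hkl hij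
      · exact absurd hkl hij.symm
      · rfl
    convert ho.comp _ hinj using 1
    ext k : 1
    fin_cases k <;> rfl
  have E10 := ge4 _ (hx 1) _ (hx 0) (pair 1 0 (by decide))
  have E20 := ge4 _ (hx 2) _ (hx 0) (pair 2 0 (by decide))
  have Q02 := ge22 _ (hx 0) _ (hx 2) (pair 0 2 (by decide))
  have Q12 := ge22 _ (hx 1) _ (hx 2) (pair 1 2 (by decide))
  have j1 := gi4 _ (hx 1) _ (hx 0) (pair 1 0 (by decide))
  have j2 := gi4 _ (hx 2) _ (hx 0) (pair 2 0 (by decide))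
  have j02 := gi22 _ (hx 0) _ (hx 2) (pair 0 2 (by decide))
  have j12 := gi22 _ (hx 1) _ (hx 2) (pair 1 2 (by decide))
  set q : ℝ := ∫ f, x 0 f ^ 2 * x 1 f ^ 2 ∂μ with hq
  set E : ℝ := ∫ f, x 0 f ^ 4 ∂μ with hE
  have f1 : ∫ f, (2 * x 0 f * x 1 f) ^ 2 ∂μ = 4 * q := by
    rw [hq, ← integral_const_mul]
    refine integral_congr_ae (Eventually.of_forall fun f => ?_)
    simp only
    ring
  have f2 : ∫ f, (x 0 f ^ 2 - x 1 f ^ 2) ^ 2 ∂μ = E + E - 2 * q := by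
    have : (fun f => (x 0 f ^ 2 - x 1 f ^ 2) ^ 2) =
        fun f => x 0 f ^ 4 + x 1 f ^ 4 - 2 * (x 0 f ^ 2 * x 1 f ^ 2) := by
      funext f; ring
    have a1 : Integrable (fun f => x 0 f ^ 4 + x 1 f ^ 4) μ := i6.add j1
    rw [this, integral_sub a1 (i5.const_mul 2), integral_add i6 j1, integral_const_mul, E10]
  have f3 : E = 3 * q := by linarith [f1, f2, e4]
  have f4 : ∫ f, (x 0 f ^ 2 - (x 1 f ^ 2 + x 2 f ^ 2) / 2) ^ 2 ∂μ = 3 * q := by
    have : (fun f => (x 0 f ^ 2 - (x 1 f ^ 2 + x 2 f ^ 2) / 2) ^ 2) =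
        fun f => x 0 f ^ 4 + (1 / 4 * x 1 f ^ 4 + (1 / 4 * x 2 f ^ 4 +
          1 / 2 * (x 1 f ^ 2 * x 2 f ^ 2))) -
          (x 0 f ^ 2 * x 1 f ^ 2 + x 0 f ^ 2 * x 2 f ^ 2) := by
      funext f; ring
    have k3 : Integrable (fun f => 1 / 4 * x 2 f ^ 4 + 1 / 2 * (x 1 f ^ 2 * x 2 f ^ 2)) μ :=
      (j2.const_mul (1 / 4)).add (j12.const_mul (1 / 2))
    have k2 : Integrable (fun f => 1 / 4 * x 1 f ^ 4 + (1 / 4 * x 2 f ^ 4 +
        1 / 2 * (x 1 f ^ 2 * x 2 f ^ 2))) μ := (j1.const_mul (1 / 4)).add k3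
    have k1 : Integrable (fun f => x 0 f ^ 4 + (1 / 4 * x 1 f ^ 4 + (1 / 4 * x 2 f ^ 4 +
        1 / 2 * (x 1 f ^ 2 * x 2 f ^ 2)))) μ := i6.add k2
    have k0 : Integrable (fun f => x 0 f ^ 2 * x 1 f ^ 2 + x 0 f ^ 2 * x 2 f ^ 2) μ := i5.add j02
    rw [this]
    rw [integral_sub k1 k0, integral_add i6 k2,
      integral_add (j1.const_mul (1 / 4)) k3,
      integral_add (j2.const_mul (1 / 4)) (j12.const_mul (1 / 2)), integral_add i5 j02,
      integral_const_mul, integral_const_mul, integral_const_mul, E10, E20, Q02, Q12]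
    linarith [f3]
  have f5 : ∫ f, (x 0 f ^ 2 - (x 1 f ^ 2 + x 2 f ^ 2) / 2) ^ 2 ∂μ ≤ 3 := by
    rw [integral_eq_lintegral_of_nonneg_ae (Eventually.of_forall fun f => sq_nonneg _) i0.1]
    exact ENNReal.toReal_le_of_le_ofReal (by norm_num) (h.trans (by norm_num))
  refine ⟨q, by linarith, fun a ha b hb hab => ⟨gi4 a ha b hb hab, gi22 a ha b hb hab, ?_,
    ge22 a ha b hb hab⟩⟩
  rw [ge4 a ha b hb hab, f3]

/-- E9d -/
theorem moments (hi : Iso μ) {x : Fin 3 → Lp ℝ 2 μ} (hx : ∀ i, x i ∈ values μ)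
    (ho : Orthonormal ℝ x)
    (h : ∫⁻ f, ENNReal.ofReal ((x 0 f ^ 2 - (x 1 f ^ 2 + x 2 f ^ 2) / 2) ^ 2) ∂μ ≤ 3) :
    ∃ q : ℝ, q ≤ 1 ∧ ∀ a ∈ values μ, ∀ b ∈ values μ, Orthonormal ℝ ![a, b] →
      Integrable (fun f => a f ^ 4) μ ∧ Integrable (fun f => a f ^ 2 * b f ^ 2) μ ∧
      ∫ f, a f ^ 4 ∂μ = 3 * q ∧ ∫ f, a f ^ 2 * b f ^ 2 ∂μ = q :=
  moments' (fun _ _ _ ha hb hab _ hF => Pool.Agent.Helper38.Er.law_eq hi ha hb hab hF) hx ho h

end

end Pool.Agent.Helper87.Er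

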